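import Pool.Agent.CopelandErdos.Final

set_option autoImplicit false

open Filter Pool.Agent.CopelandErdos

namespace Pool.Agent.Results.MP_a23773_nt.PrimesNotStronglyNormal

/-- The number `m_{k,b}(ξ; n)` of occurrences of the digit `k` among the first `n` digits of the
base `b` expansion of `ξ`. The digit with index `j` (starting from `0`) is the remainder of
`⌊ξ b ^ (j + 1)⌋` modulo `b`. -/
noncomputable def occ (b k : ℕ) (ξ : ℝ) (n : ℕ) : ℕ :=
  ((Finset.range n).filter fun j => ⌊ξ * (b : ℝ) ^ (j + 1)⌋₊ % b = k).card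

/-- The deviation of `m_{k,b}(ξ; n)` from `n / b`, divided by the square root of
`2 n log log n`. -/
noncomputable def dev (b k : ℕ) (ξ : ℝ) (n : ℕ) : ℝ :=
  ((occ b k ξ n : ℝ) - (n : ℝ) / b) / Real.sqrt (2 * (n : ℝ) * Real.log (Real.log (n : ℝ)))

/-- Simple strong normality in base `b`, with the upper and lower limits in the extended reals. -/
def SimplyStronglyNormal (b : ℕ) (ξ : ℝ) : Prop :=
  ∀ k < b,
    limsup (fun n : ℕ => ((dev b k ξ n : ℝ) : EReal)) atTop =
      ((Real.sqrt ((b : ℝ) - 1) / b : ℝ) : EReal) ∧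
    liminf (fun n : ℕ => ((dev b k ξ n : ℝ) : EReal)) atTop =
      ((-(Real.sqrt ((b : ℝ) - 1) / b) : ℝ) : EReal)

/-- Strong normality in base `b`. -/
def StronglyNormal (b : ℕ) (ξ : ℝ) : Prop :=
  ∀ m : ℕ, 1 ≤ m → SimplyStronglyNormal (b ^ m) ξ

/-- The base `b` expansions of `a 0, ..., a (n - 1)`, leading digits first, written one after
another. -/
def concat (a : ℕ → ℕ) (b n : ℕ) : List ℕ :=
  (List.range n).flatMap fun i => (Nat.digits b (a i)).reverse

/-- The number `ξ_{A,b} = 0.(a_1)_b(a_2)_b(a_3)_b...` for the sequence `a` of positive integers.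
The digit with index `n` is read off from the expansions of the first `n + 1` members. -/
noncomputable def xi (a : ℕ → ℕ) (b : ℕ) : ℝ :=
  ∑' n : ℕ, ((concat a b (n + 1)).getD n 0 : ℝ) / (b : ℝ) ^ (n + 1)

/-- The number `0.235711131719...`, the concatenation of the primes in base ten. -/
noncomputable def xiPrimes : ℝ := xi (Nat.nth Nat.Prime) 10

/-! ### The digits of the number -/

theorem concat_succ (n : ℕ) : concat (Nat.nth Nat.Prime) 10 (n + 1) =
    concat (Nat.nth Nat.Prime) 10 n ++ (Nat.digits 10 (Nat.nth Nat.Prime n)).reverse := by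
  unfold concat
  rw [List.range_succ, List.flatMap_append]
  simp

theorem length_concat (n : ℕ) : (concat (Nat.nth Nat.Prime) 10 n).length = TT n := by
  induction n with
  | zero => simp [concat, TT]
  | succ n ih => rw [concat_succ, List.length_append, ih, TT_succ, List.length_reverse]

theorem le_TT (n : ℕ) : n ≤ TT n := by
  induction n with
  | zero => simp
  | succ n ih =>
    rw [TT_succ]
    have h1 : 0 < (Nat.digits 10 (Nat.nth Nat.Prime n)).length := by
      rw [List.length_pos_iff_ne_nil, Nat.digits_ne_nil_iff_ne_zero]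
      exact (Nat.prime_nth_prime n).ne_zero
    omega

/-- The digit sequence. -/
noncomputable def dg (n : ℕ) : ℕ := (concat (Nat.nth Nat.Prime) 10 (n + 1)).getD n 0

theorem getElem?_concat_mono {n m j : ℕ} (h : n ≤ m) (hj : j < TT n) :
    (concat (Nat.nth Nat.Prime) 10 m)[j]? = (concat (Nat.nth Nat.Prime) 10 n)[j]? := by
  induction m, h using Nat.le_induction with
  | base => rfl
  | succ m hm ih =>
    have h1 : TT n ≤ TT m := by
      clear ih
      induction m, hm using Nat.le_induction with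
      | base => exact le_rfl
      | succ m _ ih => exact ih.trans (by rw [TT_succ]; omega)
    rw [concat_succ, List.getElem?_append_left (by rw [length_concat]; omega), ih]

theorem dg_eq {n j : ℕ} (hj : j < TT n) :
    (concat (Nat.nth Nat.Prime) 10 n)[j]? = some (dg j) := by
  have h1 : j < TT (j + 1) := lt_of_lt_of_le (Nat.lt_succ_self j) (le_TT (j + 1))
  have h2 : (concat (Nat.nth Nat.Prime) 10 (j + 1))[j]? = some (dg j) := by
    unfold dg
    rw [List.getD_eq_getElem?_getD, List.getElem?_eq_getElem (by rw [length_concat]; exact h1)]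
    rfl
  rcases le_total n (j + 1) with h | h
  · rw [← getElem?_concat_mono h hj, h2]
  · rw [getElem?_concat_mono h h1, h2]

theorem isConcat_dg : IsConcat dg := by
  intro n
  have h0 : ((List.range n).map (fun i => (Nat.digits 10 (Nat.nth Nat.Prime i)).length)).sum =
      TT n := rfl
  rw [h0]
  show (List.range (TT n)).map dg = concat (Nat.nth Nat.Prime) 10 n
  apply List.ext_getElem?
  intro j
  by_cases hj : j < TT n
  · rw [dg_eq hj, List.getElem?_map, List.getElem?_range hj]
    rfl
  · rw [List.getElem?_eq_none (by simpa using hj),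
      List.getElem?_eq_none (by rw [length_concat]; omega)]

theorem dg_lt (n : ℕ) : dg n < 10 := by
  have h1 : n < TT (n + 1) := lt_of_lt_of_le (Nat.lt_succ_self n) (le_TT (n + 1))
  have h2 := dg_eq h1
  have h3 := List.mem_of_getElem? h2
  unfold concat at h3
  rw [List.mem_flatMap] at h3
  obtain ⟨i, _, hi⟩ := h3
  exact Nat.digits_lt_base (by norm_num) (List.mem_reverse.1 hi)

/-- The digit `9` does not recur from some place on. -/
theorem exists_ne_nine (N : ℕ) : ∃ n, N ≤ n ∧ dg n ≠ 9 := by
  by_contra hcon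
  push Not at hcon
  set p := Nat.nth Nat.Prime N with hp
  have hpp : Nat.Prime p := Nat.prime_nth_prime N
  have h1 : ∀ x ∈ Nat.digits 10 p, x = 9 := by
    intro x hx
    obtain ⟨l, hl, rfl⟩ := List.getElem_of_mem (List.mem_reverse.2 hx)
    have h2 : TT N + l < TT (N + 1) := by
      rw [TT_succ, ← hp]
      rw [List.length_reverse] at hl
      omega
    have h3 := dg_eq h2
    rw [concat_succ, List.getElem?_append_right (by rw [length_concat]; omega), length_concat,
      Nat.add_sub_cancel_left, ← hp, List.getElem?_eq_getElem hl] at h3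
    have h4 := hcon (TT N + l) ((le_TT N).trans (Nat.le_add_right _ _))
    rw [h4] at h3
    exact Option.some_injective _ h3
  have h2 : 9 ∣ p := by
    rw [Nat.nine_dvd_iff]
    have h3 : (Nat.digits 10 p).sum = (Nat.digits 10 p).length * 9 := by
      rw [List.eq_replicate_of_mem h1, List.sum_replicate, List.length_replicate, smul_eq_mul]
    rw [h3]
    exact Dvd.intro_left _ rfl
  have h3 : 3 ∣ p := (by norm_num : 3 ∣ 9).trans h2
  rw [Nat.prime_dvd_prime_iff_eq Nat.prime_three hpp] at h3
  rw [← h3] at h2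
  revert h2
  norm_num

/-- The integer formed by the first `N` digits. -/
noncomputable def pre (N : ℕ) : ℕ := ∑ i ∈ Finset.range N, dg i * 10 ^ (N - 1 - i)

theorem pre_add (N m : ℕ) : pre (N + m) =
    10 ^ m * pre N + ∑ i ∈ Finset.range m, dg (N + i) * 10 ^ (m - 1 - i) := by
  unfold pre
  rw [Finset.sum_range_add, Finset.mul_sum]
  congr 1
  · refine Finset.sum_congr rfl fun i hi => ?_
    rw [Finset.mem_range] at hi
    have h1 : N + m - 1 - i = m + (N - 1 - i) := by omega
    rw [h1, pow_add]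
    ring
  · refine Finset.sum_congr rfl fun i hi => ?_
    congr 2
    omega

theorem block_lt (f : ℕ → ℕ) (hf : ∀ n, f n < 10) (m : ℕ) :
    ∑ i ∈ Finset.range m, f i * 10 ^ (m - 1 - i) < 10 ^ m := by
  induction m with
  | zero => simp
  | succ m ih =>
    rw [Finset.sum_range_succ]
    have h1 : ∑ i ∈ Finset.range m, f i * 10 ^ (m + 1 - 1 - i) =
        10 * ∑ i ∈ Finset.range m, f i * 10 ^ (m - 1 - i) := by
      rw [Finset.mul_sum]
      refine Finset.sum_congr rfl fun i hi => ?_
      rw [Finset.mem_range] at hi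
      have h2 : m + 1 - 1 - i = (m - 1 - i) + 1 := by omega
      rw [h2, pow_succ]
      ring
    rw [h1]
    have h3 := hf m
    have h4 : m + 1 - 1 - m = 0 := by omega
    rw [h4, pow_zero, mul_one, pow_succ]
    omega

theorem summable_dg (N : ℕ) : Summable fun n : ℕ => (dg (N + n) : ℝ) / (10 : ℝ) ^ (n + 1) := by
  refine Summable.of_nonneg_of_le (fun n => by positivity) (fun n => ?_)
    ((summable_geometric_of_lt_one (by norm_num : (0 : ℝ) ≤ 1 / 10) (by norm_num)))
  have h1 : (dg (N + n) : ℝ) ≤ 10 := by exact_mod_cast (dg_lt (N + n)).le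
  rw [div_pow, one_pow, div_le_div_iff₀ (by positivity) (by positivity), pow_succ]
  nlinarith [pow_pos (by norm_num : (0 : ℝ) < 10) n]

theorem tail_lt_one (N : ℕ) : ∑' n : ℕ, (dg (N + n) : ℝ) / (10 : ℝ) ^ (n + 1) < 1 := by
  obtain ⟨n₀, hn₀, hne⟩ := exists_ne_nine N
  have hg : HasSum (fun n : ℕ => (9 : ℝ) / (10 : ℝ) ^ (n + 1)) 1 := by
    have h1 := (hasSum_geometric_of_lt_one (by norm_num : (0 : ℝ) ≤ 1 / 10)
      (by norm_num)).mul_left (9 / 10)
    norm_num at h1
    convert! h1 using 1
    funext n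
    rw [pow_succ, one_div, inv_pow]
    field_simp
  rw [← hg.tsum_eq]
  refine Summable.tsum_lt_tsum (i := n₀ - N) (fun n => ?_) ?_ (summable_dg N) hg.summable
  · have h1 : (dg (N + n) : ℝ) ≤ 9 := by
      have := dg_lt (N + n)
      exact_mod_cast (by omega : dg (N + n) ≤ 9)
    gcongr
  · have h1 : (dg (N + (n₀ - N)) : ℝ) < 9 := by
      have h2 := dg_lt n₀
      have h3 : N + (n₀ - N) = n₀ := by omega
      rw [h3]
      exact_mod_cast (by omega : dg n₀ < 9)
    gcongr

theorem xi_mul_pow (N : ℕ) : xiPrimes * (10 : ℝ) ^ N =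
    pre N + ∑' n : ℕ, (dg (N + n) : ℝ) / (10 : ℝ) ^ (n + 1) := by
  have h0 : xiPrimes = ∑' n : ℕ, (dg n : ℝ) / (10 : ℝ) ^ (n + 1) := by
    unfold xiPrimes xi dg
    simp
  have hs : Summable fun n : ℕ => (dg n : ℝ) / (10 : ℝ) ^ (n + 1) := by
    have := summable_dg 0
    simpa using this
  rw [h0, ← hs.sum_add_tsum_nat_add N, add_mul]
  congr 1
  · unfold pre
    push_cast
    rw [Finset.sum_mul]
    refine Finset.sum_congr rfl fun i hi => ?_
    rw [Finset.mem_range] at hi
    have h1 : (10 : ℝ) ^ N = 10 ^ (i + 1) * 10 ^ (N - 1 - i) := by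
      rw [← pow_add]
      congr 1
      omega
    rw [h1]
    field_simp
  · rw [← tsum_mul_right]
    refine tsum_congr fun n => ?_
    rw [add_comm n N]
    have h1 : (10 : ℝ) ^ (N + n + 1) = 10 ^ (n + 1) * 10 ^ N := by
      rw [← pow_add]
      congr 1
      omega
    rw [h1]
    field_simp

theorem floor_xi (N : ℕ) : ⌊xiPrimes * (10 : ℝ) ^ N⌋₊ = pre N := by
  rw [xi_mul_pow]
  rw [Nat.floor_eq_iff (by
    have : 0 ≤ ∑' n : ℕ, (dg (N + n) : ℝ) / (10 : ℝ) ^ (n + 1) := tsum_nonneg fun n => by positivity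
    positivity)]
  constructor
  · have : 0 ≤ ∑' n : ℕ, (dg (N + n) : ℝ) / (10 : ℝ) ^ (n + 1) := tsum_nonneg fun n => by positivity
    linarith
  · have := tail_lt_one N
    linarith

/-- The digits of the number in base `10 ^ m`. -/
theorem digit_xi {m : ℕ} (j : ℕ) :
    ⌊xiPrimes * ((10 ^ m : ℕ) : ℝ) ^ (j + 1)⌋₊ % 10 ^ m =
      ∑ i ∈ Finset.range m, dg (j * m + i) * 10 ^ (m - 1 - i) := by
  have h1 : ((10 ^ m : ℕ) : ℝ) ^ (j + 1) = (10 : ℝ) ^ (j * m + m) := by
    push_cast
    rw [← pow_mul]
    congr 1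
    ring
  rw [h1, floor_xi, pre_add, Nat.mul_add_mod]
  exact Nat.mod_eq_of_lt (block_lt (fun i => dg (j * m + i)) (fun i => dg_lt _) m)

theorem occ_xi (m k n : ℕ) : occ (10 ^ m) k xiPrimes n = cnt dg m k n := by
  unfold occ cnt
  congr 1
  refine Finset.filter_congr fun j _ => ?_
  rw [digit_xi]

/-- The number `0.235711131719...` is not simply strongly normal in base `10 ^ 10`; in
particular it is not strongly normal in base ten. -/
theorem result : ¬ SimplyStronglyNormal (10 ^ 10) xiPrimes ∧ ¬ StronglyNormal 10 xiPrimes := by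
  have hmain : ¬ SimplyStronglyNormal (10 ^ 10) xiPrimes := by
    intro h
    refine not_strongly_normal dg isConcat_dg fun k hk => ?_
    obtain ⟨h1, h2⟩ := h k hk
    have hdev : ∀ n : ℕ, dev (10 ^ 10) k xiPrimes n =
        ((cnt dg 10 k n : ℝ) - (n : ℝ) / (10 : ℝ) ^ 10) /
          Real.sqrt (2 * (n : ℝ) * Real.log (Real.log (n : ℝ))) := by
      intro n
      unfold dev
      rw [occ_xi, Nat.cast_pow, Nat.cast_ofNat]
    rw [Nat.cast_pow, Nat.cast_ofNat] at h1 h2
    constructor
    · intro ε hε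
      have h3 : limsup (fun n : ℕ => ((dev (10 ^ 10) k xiPrimes n : ℝ) : EReal)) atTop <
          ((Real.sqrt ((10 : ℝ) ^ 10 - 1) / (10 : ℝ) ^ 10 + ε : ℝ) : EReal) := by
        rw [h1]
        exact EReal.coe_lt_coe_iff.2 (by linarith)
      filter_upwards [eventually_lt_of_limsup_lt h3] with n hn
      rw [← hdev]
      exact EReal.coe_lt_coe_iff.1 hn
    · intro ε hε
      have h3 : ((-(Real.sqrt ((10 : ℝ) ^ 10 - 1) / (10 : ℝ) ^ 10) - ε : ℝ) : EReal) <
          liminf (fun n : ℕ => ((dev (10 ^ 10) k xiPrimes n : ℝ) : EReal)) atTop := by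
        rw [h2]
        exact EReal.coe_lt_coe_iff.2 (by linarith)
      filter_upwards [eventually_lt_of_lt_liminf h3] with n hn
      rw [← hdev]
      exact EReal.coe_lt_coe_iff.1 hn
  exact ⟨hmain, fun h => hmain (h 10 (by norm_num))⟩

end Pool.Agent.Results.MP_a23773_nt.PrimesNotStronglyNormal
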